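import Pool.Agent.Helper24.PB.Extract
import Pool.Agent.Helper60.PB.G1.BadE

set_option autoImplicit false

/-!
# PB birational: stability and birational maps

`X`, `Y` have the same function field; `DX ≥ DY` at the common prime divisors, and at the prime divisors `P`
of `X` which are not prime divisors of `Y`, the divisor `DY` has a value, which is less than `DX P`.

For `B ≥ 0` on `X` let `BY` be `DX + B - DY` at the common prime divisors, and a large number at the
prime divisors of `Y` which are not prime divisors of `X`. `BY ≥ 0`. Let `R` be a large natural number.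
* `H⁰(Y, m (DY + BY / R)) ⊆ H⁰(X, m (DX + B))`: clear at the common prime divisors, and at the others
  the value of `DY + H / R` is at most `DX P`, where `H ≥ BY` is Cartier.
* if `0 ≠ η ∈ H⁰(Y, N DY)` then `η ^ (R m)` times `H⁰(X, m (DX + B) + A)` is contained in
  `H⁰(Y, m (1 + R N) (DY + BY / R) + AY)`.
-/

namespace Pool.Agent.Helper63.PB

open Pool.Agent.Helper92.Weak Pool.Agent.Helper92.Ga Pool.Agent.Helper47.PQ

variable {k L : Type*} [Field k] [Field L] [Algebra k L] {X Y : ProjVar k L}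

/-- A function on the prime divisors of `Y` which vanishes at almost all of them. -/
private theorem bi_finite (f : Y.primeDivisors → ℚ) (D : X.Div) (E : Y.Div)
    (h : ∀ Q : Y.primeDivisors, ∀ hQ : Q.1 ∈ X.primeDivisors, D ⟨Q.1, hQ⟩ = 0 → E Q = 0 → f Q = 0) :
    (Function.support f).Finite := by
  classical
  have h1 : {Q : Y.primeDivisors | ∃ P ∈ D.support, P.1 = Q.1}.Finite := by
    refine Set.Finite.of_injOn (f := fun Q : Y.primeDivisors => Q.1)
      (t := Subtype.val '' (D.support : Set X.primeDivisors)) ?_ ?_ ?_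
    · rintro Q ⟨P, hP, hPQ⟩
      exact ⟨P, hP, hPQ⟩
    · intro Q _ Q' _ hQ
      exact Subtype.ext hQ
    · exact D.support.finite_toSet.image _
  refine ((h1.union (finite_exc X Y)).union E.support.finite_toSet).subset ?_
  intro Q hQ
  by_cases hQX : Q.1 ∈ X.primeDivisors
  · by_cases hD : D ⟨Q.1, hQX⟩ = 0
    · right
      rw [Finset.mem_coe, Finsupp.mem_support_iff]
      intro hE
      exact hQ (h Q hQX hD hE)
    · left
      left
      exact ⟨⟨Q.1, hQX⟩, Finsupp.mem_support_iff.2 hD, rfl⟩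
  · left
    right
    exact hQX

/-- A divisor on `Y` with prescribed values: those of `D` at the common prime divisors minus those of `E`,
and `N` at the others. -/
private theorem bi_exists (D : X.Div) (E : Y.Div) (N : Y.primeDivisors → ℚ) :
    ∃ B : Y.Div, (∀ (Q : Y.primeDivisors) (hQ : Q.1 ∈ X.primeDivisors),
      B Q = D ⟨Q.1, hQ⟩ - E Q) ∧ ∀ Q : Y.primeDivisors, Q.1 ∉ X.primeDivisors → B Q = N Q := by
  classical
  let f : Y.primeDivisors → ℚ := fun Q =>
    if hQ : Q.1 ∈ X.primeDivisors then D ⟨Q.1, hQ⟩ - E Q else N Q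
  have hf : (Function.support f).Finite := by
    refine bi_finite f D E fun Q hQ h1 h2 => ?_
    change (if hQ : Q.1 ∈ X.primeDivisors then D ⟨Q.1, hQ⟩ - E Q else N Q) = 0
    rw [dif_pos hQ, h1, h2, sub_zero]
  refine ⟨Finsupp.ofSupportFinite f hf, fun Q hQ => ?_, fun Q hQ => ?_⟩
  · exact dif_pos hQ
  · exact dif_neg hQ

/-- Every divisor is at most a Cartier divisor. -/
theorem exists_cartier_ge (Y : ProjVar k L) (B : Y.Div) :
    ∃ H : Y.Div, (∀ Q, B Q ≤ H Q) ∧ Y.IsQCartier H := by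
  classical
  obtain ⟨g, c, hg0, hg1, hg2⟩ := Pool.Agent.Helper60.PB.VG_mult Y (fun Q => ⌈B Q⌉₊) B.support
  have hfin : {Q : Y.primeDivisors |
      ((Q.1 g + c * Pool.Agent.Helper60.PB.VGmu Y Q.1 : ℤ) : ℚ) ≠ 0}.Finite := by
    refine ((Y.prin g).support.finite_toSet.union (Set.finite_iUnion fun j : Fin (Y.n + 1) =>
      (Y.prin (Pool.Agent.Helper60.PB.VGy Y j)).support.finite_toSet)).subset ?_
    intro Q hQ
    by_contra h
    rw [Set.mem_union, Set.mem_iUnion, not_or, not_exists] at h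
    obtain ⟨h3, h4⟩ := h
    rw [Finset.mem_coe, Finsupp.notMem_support_iff, ProjVar.prin_apply] at h3
    apply hQ
    have h5 : Q.1 g = 0 := by exact_mod_cast h3
    have h6 : Pool.Agent.Helper60.PB.VGmu Y Q.1 = 0 := by
      apply le_antisymm
      · apply Finset.sup'_le
        intro j _
        have h7 := h4 j
        rw [Finset.mem_coe, Finsupp.notMem_support_iff, ProjVar.prin_apply] at h7
        have h8 : Q.1 (Pool.Agent.Helper60.PB.VGy Y j) = 0 := by exact_mod_cast h7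
        rw [h8, neg_zero]
      · exact Pool.Agent.Helper60.PB.VGmu_nonneg Y Q.1
    rw [h5, h6]
    simp
  refine ⟨Finsupp.ofSupportFinite _ hfin, fun Q => ?_, ?_⟩
  · change B Q ≤ ((Q.1 g + c * Pool.Agent.Helper60.PB.VGmu Y Q.1 : ℤ) : ℚ)
    by_cases hQ : Q ∈ B.support
    · have h1 := hg2 Q hQ
      have h2 : B Q ≤ (⌈B Q⌉₊ : ℚ) := Nat.le_ceil _
      refine h2.trans ?_
      exact_mod_cast h1
    · rw [Finsupp.notMem_support_iff] at hQ
      rw [hQ]
      have h1 := hg1 Q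
      have h2 : 0 ≤ Q.1 g + c * Pool.Agent.Helper60.PB.VGmu Y Q.1 := by linarith
      exact_mod_cast h2
  · rintro R ⟨i, hi⟩
    refine ⟨1, one_pos, g / Pool.Agent.Helper60.PB.VGy Y i ^ c,
      div_ne_zero hg0 (pow_ne_zero _ (Pool.Agent.Helper60.PB.VGy_ne Y i)), fun Q hQ => ?_⟩
    have h1 : chart k Y.x i ≤ Q.1.ring := by
      obtain ⟨p, hp, h⟩ := hi
      intro z hz
      exact hQ ((h z).2 ⟨⟨z, hz⟩, 1, fun h1 => hp.ne_top ((Ideal.eq_top_iff_one p).2 h1), by simp⟩)
    rw [Finsupp.smul_apply, smul_eq_mul, Nat.cast_one, one_mul,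
      Q.1.map_div hg0 (pow_ne_zero _ (Pool.Agent.Helper60.PB.VGy_ne Y i)), Q.1.map_pow,
      Pool.Agent.Helper60.PB.VGmu_chart Y Q.1 i h1]
    change _ = ((Q.1 g + c * Pool.Agent.Helper60.PB.VGmu Y Q.1 : ℤ) : ℚ)
    push_cast
    ring

theorem isStable_birational_div [IsAlgClosed k] {DX : X.Div} {DY : Y.Div}
    (h1 : ∀ (P : X.primeDivisors) (Q : Y.primeDivisors), P.1 = Q.1 → DY Q ≤ DX P)
    (h2 : ∀ P : X.primeDivisors, P.1 ∉ Y.primeDivisors →
      ∃ c, Y.IsValue P.1 DY c ∧ c < DX P)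
    (hs : IsStable Y DY) : IsStable X DX := by
  classical
  have key : ∀ B : X.Div, (∀ P, 0 ≤ B P) → ∃ B' : Y.Div, (∀ Q, 0 ≤ B' Q) ∧
      Y.kod (DY + B') ≤ X.kod (DX + B) ∧ X.nu (DX + B) ≤ Y.nu (DY + B') := by
    intro B hB
    obtain ⟨η, N, hη, hN, hηQ⟩ : ∃ (η : L) (N : ℕ), η ≠ 0 ∧ 0 < N ∧
        ∀ Q : Y.primeDivisors, 0 ≤ (Q.1 η : ℚ) + N * DY Q := by
      obtain ⟨N, hN, η, hη, h⟩ := exists_pluri hs.1
      exact ⟨η, N, hη, hN, h⟩
    choose C hC using fun Q : Y.primeDivisors =>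
      Pool.Agent.Helper60.PB.val_ge_slope X (DX + B) Q.1
    obtain ⟨BY, hBY1, hBY2⟩ := bi_exists (DX + B) DY fun Q => C Q + |DY Q|
    have hBY0 : ∀ Q, 0 ≤ BY Q := by
      intro Q
      by_cases hQ : Q.1 ∈ X.primeDivisors
      · rw [hBY1 Q hQ, Finsupp.add_apply]
        linarith [h1 ⟨Q.1, hQ⟩ Q rfl, hB ⟨Q.1, hQ⟩]
      · rw [hBY2 Q hQ]
        positivity
    -- the values
    choose! α hα hα' using h2
    obtain ⟨H, hH, hHC⟩ := exists_cartier_ge Y BY
    choose β hβ using fun P : X.primeDivisors => hHC.exists_value P.1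
    have hβ0 : ∀ P, 0 ≤ β P := fun P => ex_value_nonneg (hβ P) fun Q => (hBY0 Q).trans (hH Q)
    obtain ⟨c, hc, hcS⟩ := exists_small (finite_exc Y X).toFinset (fun P => α P - DX P + 1)
      (fun P => β P) (fun P => P.1 ∉ Y.primeDivisors)
      (fun P hP => by linarith [hα' P hP]) hβ0
    obtain ⟨R, hR⟩ := exists_nat_gt (1 / c)
    have hRpos : (0 : ℚ) < R := lt_trans (by positivity) hR
    have hR1 : 1 ≤ R := by exact_mod_cast hRpos
    have hRc : (R : ℚ)⁻¹ ≤ c := by
      rw [inv_le_comm₀ hRpos hc, ← one_div]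
      exact hR.le
    have hRi : (0 : ℚ) < (R : ℚ)⁻¹ := inv_pos.2 hRpos
    have hRi1 : (R : ℚ)⁻¹ ≤ 1 := inv_le_one_of_one_le₀ (by exact_mod_cast hR1)
    have hvalue : ∀ P : X.primeDivisors, P.1 ∉ Y.primeDivisors →
        α P + (R : ℚ)⁻¹ * β P ≤ DX P := by
      intro P hP
      have h3 := hcS P (by rw [Set.Finite.mem_toFinset]; exact hP) hP
      have h4 : (R : ℚ)⁻¹ * β P ≤ c * β P := mul_le_mul_of_nonneg_right hRc (hβ0 P)
      linarith
    refine ⟨(R : ℚ)⁻¹ • BY, fun Q => ?_, ?_, ?_⟩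
    · rw [Finsupp.smul_apply, smul_eq_mul]
      exact mul_nonneg hRi.le (hBY0 Q)
    · -- the lower bound
      refine kod_le_of_H0 fun m _ f hf => ?_
      rw [Pool.Agent.Helper60.MA.mem_H0] at hf ⊢
      intro P
      by_cases hf0 : f = 0
      · left
        exact hf0
      have hm0 : (0 : ℚ) ≤ m := Nat.cast_nonneg m
      by_cases hP : P.1 ∈ Y.primeDivisors
      · have h3 := hf ⟨P.1, hP⟩
        refine h3.mono ?_
        have h4 : BY ⟨P.1, hP⟩ = (DX + B) P - DY ⟨P.1, hP⟩ := hBY1 ⟨P.1, hP⟩ P.2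
        have h5 := h1 P ⟨P.1, hP⟩ rfl
        rw [Finsupp.smul_apply, Finsupp.smul_apply, Finsupp.add_apply DY, Finsupp.smul_apply, h4,
          smul_eq_mul, smul_eq_mul, smul_eq_mul]
        have h6 : 0 ≤ (DX + B) P - DY ⟨P.1, hP⟩ := by rw [← h4]; exact hBY0 _
        have h7 : (R : ℚ)⁻¹ * ((DX + B) P - DY ⟨P.1, hP⟩) ≤ (DX + B) P - DY ⟨P.1, hP⟩ :=
          mul_le_of_le_one_left h6 hRi1
        have h8 := mul_le_mul_of_nonneg_left h7 hm0
        linarith
      · have h3 : Y.IsValue P.1 ((m : ℚ) • (DY + (R : ℚ)⁻¹ • H) + Y.prin f)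
            (m * (α P + (R : ℚ)⁻¹ * β P) + P.1 f) :=
          (((hα P hP).add ((hβ P).smul _)).smul m).add (ProjVar.IsValue.prin hf0)
        have h4 := ex_value_nonneg h3 fun Q => by
          have h5 := hf Q
          rw [DVal.ge_iff hf0, Finsupp.smul_apply, Finsupp.add_apply, Finsupp.smul_apply,
            smul_eq_mul, smul_eq_mul] at h5
          rw [Finsupp.add_apply, ProjVar.prin_apply, Finsupp.smul_apply, Finsupp.add_apply,
            Finsupp.smul_apply, smul_eq_mul, smul_eq_mul]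
          have h6 : (m : ℚ) * ((R : ℚ)⁻¹ * BY Q) ≤ m * ((R : ℚ)⁻¹ * H Q) :=
            mul_le_mul_of_nonneg_left (mul_le_mul_of_nonneg_left (hH Q) hRi.le) hm0
          linarith
        rw [DVal.ge_iff hf0, Finsupp.smul_apply, smul_eq_mul, Finsupp.add_apply]
        have h5 : (m : ℚ) * (α P + (R : ℚ)⁻¹ * β P) ≤ m * DX P :=
          mul_le_mul_of_nonneg_left (hvalue P hP) hm0
        have h6 := mul_nonneg hm0 (hB P)
        linarith
    · -- the upper bound
      rw [nu_eq_sup, nu_eq_sup]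
      refine iSup_le fun A => ?_
      choose C' hC' using fun Q : Y.primeDivisors => hC Q A
      obtain ⟨AY, hAY1, hAY2⟩ := bi_exists A (0 : Y.Div) fun Q => (C' Q : ℚ)
      refine le_trans ?_ (le_iSup (fun A' : Y.Div => logGrowth fun m =>
        sdim (Y.H0 ((m : ℚ) • (DY + (R : ℚ)⁻¹ • BY) + A'))) AY)
      refine logGrowth_le_of_le (C := 1) (φ := fun m => m * (1 + R * N)) ?_
        (a := 1 + R * N) (c := 0) (fun m => by rw [add_zero, mul_comm]) fun m _ => ?_
      · exact Filter.tendsto_atTop_mono (fun m => Nat.le_mul_of_pos_right m (by positivity))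
          Filter.tendsto_id
      rw [Nat.cast_one, one_mul]
      refine sdim_le_of_mul (η ^ (R * m)) (pow_ne_zero _ hη) fun f hf => ?_
      rw [Pool.Agent.Helper60.MA.mem_H0]
      intro Q
      by_cases hf0 : f = 0
      · left
        rw [hf0, zero_mul]
      have hm0 : (0 : ℚ) ≤ m := Nat.cast_nonneg m
      have hηm : η ^ (R * m) ≠ 0 := pow_ne_zero _ hη
      have h3 := hηQ Q
      have h4 : (0 : ℚ) ≤ (R * m : ℕ) * ((Q.1 η : ℚ) + N * DY Q) :=
        mul_nonneg (Nat.cast_nonneg _) h3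
      have h5 : (R : ℚ) * (R : ℚ)⁻¹ = 1 := mul_inv_cancel₀ hRpos.ne'
      have h6 : (0 : ℚ) ≤ m * (R : ℚ)⁻¹ * BY Q := mul_nonneg (mul_nonneg hm0 hRi.le) (hBY0 Q)
      have h7 : (m * BY Q : ℚ) ≤ m * (1 + R * N) * ((R : ℚ)⁻¹ * BY Q) := by
        have h8 : (m : ℚ) * (1 + R * N) * ((R : ℚ)⁻¹ * BY Q) =
            m * (R : ℚ)⁻¹ * BY Q + m * N * BY Q * (R * (R : ℚ)⁻¹) := by ring
        rw [h8, h5, mul_one]
        have h9 : (m * BY Q : ℚ) ≤ m * N * BY Q := by
          have h10 : (1 : ℚ) ≤ N := by exact_mod_cast hN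
          have h11 := mul_nonneg hm0 (hBY0 Q)
          nlinarith
        linarith
      have h8 : (-((m : ℚ) * (DY Q + BY Q) + AY Q)) ≤ Q.1 f := by
        by_cases hQ : Q.1 ∈ X.primeDivisors
        · rw [Pool.Agent.Helper60.MA.mem_H0] at hf
          have h9 := hf ⟨Q.1, hQ⟩
          rw [DVal.ge_iff hf0, Finsupp.add_apply ((m : ℚ) • (DX + B)), Finsupp.smul_apply,
            smul_eq_mul] at h9
          have h10 : (DX + B) ⟨Q.1, hQ⟩ = DY Q + BY Q := by
            rw [hBY1 Q hQ]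
            ring
          rw [h10] at h9
          rw [hAY1 Q hQ, Finsupp.coe_zero, Pi.zero_apply, sub_zero]
          exact h9
        · have h9 := hC' Q m f hf
          rw [DVal.ge_iff hf0] at h9
          rw [hBY2 Q hQ, hAY2 Q hQ]
          have h10 := neg_abs_le (DY Q)
          have h11 : (0 : ℚ) ≤ m * (DY Q + |DY Q|) := mul_nonneg hm0 (by linarith)
          linarith
      rw [DVal.ge_iff (mul_ne_zero hf0 hηm), Q.1.map_mul hf0 hηm, Q.1.map_pow, Finsupp.add_apply,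
        Finsupp.smul_apply, Finsupp.add_apply, Finsupp.smul_apply, smul_eq_mul, smul_eq_mul]
      push_cast at h4 ⊢
      have h12 : (m : ℚ) * (1 + R * N) * (DY Q + (R : ℚ)⁻¹ * BY Q) =
          m * DY Q + R * m * (N * DY Q) + m * (1 + R * N) * ((R : ℚ)⁻¹ * BY Q) := by ring
      rw [h12]
      linarith
  constructor
  · obtain ⟨B', hB', h3, -⟩ := key 0 fun _ => le_rfl
    rw [add_zero] at h3
    intro h4
    rw [h4] at h3
    have h5 : Y.kod DY ≤ Y.kod (DY + B') := kod_mono fun Q => by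
      rw [Finsupp.add_apply]
      linarith [hB' Q]
    rw [le_bot_iff.1 h3] at h5
    exact hs.1 (le_bot_iff.1 h5)
  · intro B hB
    obtain ⟨B', hB', h3, h4⟩ := key B hB
    refine le_antisymm (kod_le_nu _) (h4.trans ?_)
    rw [← hs.2 B' hB']
    exact h3

/-- Let the varieties `X` and `Y` have the same function field. Let the boundary of `X` be at least
the one of `Y` along the common prime divisors, and at the other prime divisors `P` of `X` let
`K_Y + Δ_Y` be `ℚ`-Cartier and the coefficient larger than `1 - A`, where `A` is the log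
discrepancy of `(Y, q)` at `P`. If `(Y, q)` is stable then `(X, p)` is stable. -/
theorem isStable_birational [IsAlgClosed k] [CharZero k] {n : ℕ} (hn : Algebra.trdeg k L = n)
    (q : Y.Pair n) (p : X.Pair n)
    (h1 : ∀ (P : X.primeDivisors) (Q : Y.primeDivisors), P.1 = Q.1 → q.Δ Q ≤ p.Δ P)
    (h2 : ∀ P : X.primeDivisors, P.1 ∉ Y.primeDivisors → ∃ (a : ℤ) (c : ℚ), P.1.HasOrd q.ω a ∧
      Y.IsValue P.1 q.logDiv c ∧ c < a + p.Δ P)
    (hs : IsStable Y q.logDiv) : IsStable X p.logDiv := by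
  obtain ⟨y, hy⟩ := exists_basis_of_trdeg hn
  obtain ⟨D, hD⟩ := exists_der hy
  obtain ⟨f, hf, hωf⟩ := exists_mult hy y D hD Y q.isDivisorOf
  obtain ⟨g, hg, hωg⟩ := exists_mult hy y D hD X p.isDivisorOf
  have hψ : f / g ≠ 0 := div_ne_zero hf hg
  have hω : ∀ _ : DVal k L, q.ω = (f / g) • p.ω := by
    intro v
    rw [hωf v, hωg v, smul_smul, div_mul_cancel₀ _ hg]
  have hord : ∀ P : X.primeDivisors, ∃ a : ℤ, P.1.HasOrd q.ω a ∧
      (a : ℚ) = (p.can + X.prin (f / g)) P := by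
    intro P
    obtain ⟨a, ha, hoa⟩ := p.isDivisorOf P
    refine ⟨_, by rw [hω P.1]; exact hasOrd_smul hψ hoa, ?_⟩
    rw [Finsupp.add_apply, ProjVar.prin_apply, ha]
    push_cast
    ring
  have h3 : IsStable X (p.logDiv + X.prin (f / g)) := by
    refine isStable_birational_div (DY := q.logDiv) (fun P Q hPQ => ?_) (fun P hP => ?_) hs
    · obtain ⟨a, ha, haP⟩ := hord P
      obtain ⟨b, hb, hob⟩ := q.isDivisorOf Q
      rw [hPQ] at ha
      have hab : a = b := hasOrd_unique ha hob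
      have h4 := h1 P Q hPQ
      unfold ProjVar.Pair.logDiv
      rw [Finsupp.add_apply] at haP
      rw [Finsupp.add_apply, Finsupp.add_apply, Finsupp.add_apply, hb, ← hab]
      linarith
    · obtain ⟨a, ha, haP⟩ := hord P
      obtain ⟨a', c, ha', hc, h4⟩ := h2 P hP
      have haa : a' = a := hasOrd_unique ha' ha
      rw [haa] at h4
      refine ⟨c, hc, ?_⟩
      rw [Finsupp.add_apply] at haP
      unfold ProjVar.Pair.logDiv
      rw [Finsupp.add_apply, Finsupp.add_apply]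
      linarith
  have h4 := h3.congr (inv_ne_zero hψ)
  have h5 : p.logDiv + X.prin (f / g) + X.prin (f / g)⁻¹ = p.logDiv := by
    ext P
    rw [Finsupp.add_apply, Finsupp.add_apply, ProjVar.prin_apply, ProjVar.prin_apply, P.1.map_inv]
    push_cast
    ring
  rwa [h5] at h4

/-! ### Crepant birational maps -/

private theorem bi_H0_le {DX : X.Div} {DY : Y.Div}
    (h0 : ∀ (P : X.primeDivisors) (Q : Y.primeDivisors), P.1 = Q.1 → DY Q ≤ DX P)
    (h1 : ∀ P : X.primeDivisors, P.1 ∉ Y.primeDivisors →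
      ∃ c, Y.IsValue P.1 DY c ∧ c ≤ DX P)
    {A H : Y.Div} (hAH : ∀ Q, A Q ≤ H Q) {A' : X.Div}
    (hA : ∀ (P : X.primeDivisors) (Q : Y.primeDivisors), P.1 = Q.1 → A Q ≤ A' P)
    (hA' : ∀ P : X.primeDivisors, P.1 ∉ Y.primeDivisors →
      ∃ c, Y.IsValue P.1 H c ∧ c ≤ A' P) (m : ℕ) :
    Y.H0 ((m : ℚ) • DY + A) ≤ X.H0 ((m : ℚ) • DX + A') := by
  intro f hf
  rw [Pool.Agent.Helper60.MA.mem_H0] at hf ⊢
  intro P
  by_cases hf0 : f = 0
  · left
    exact hf0
  have hm0 : (0 : ℚ) ≤ m := Nat.cast_nonneg m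
  rw [DVal.ge_iff hf0, Finsupp.add_apply, Finsupp.smul_apply, smul_eq_mul]
  by_cases hP : P.1 ∈ Y.primeDivisors
  · have h3 := hf ⟨P.1, hP⟩
    rw [DVal.ge_iff hf0, Finsupp.add_apply, Finsupp.smul_apply, smul_eq_mul] at h3
    have h4 := mul_le_mul_of_nonneg_left (h0 P ⟨P.1, hP⟩ rfl) hm0
    have h5 := hA P ⟨P.1, hP⟩ rfl
    linarith
  · obtain ⟨c, hc, hc1⟩ := h1 P hP
    obtain ⟨b, hb, hb1⟩ := hA' P hP
    have h3 : Y.IsValue P.1 ((m : ℚ) • DY + H + Y.prin f) (m * c + b + P.1 f) :=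
      ((hc.smul m).add hb).add (ProjVar.IsValue.prin hf0)
    have h4 := ex_value_nonneg h3 fun Q => by
      have h5 := hf Q
      rw [DVal.ge_iff hf0, Finsupp.add_apply, Finsupp.smul_apply, smul_eq_mul] at h5
      rw [Finsupp.add_apply, ProjVar.prin_apply, Finsupp.add_apply, Finsupp.smul_apply,
        smul_eq_mul]
      linarith [hAH Q]
    have h5 := mul_le_mul_of_nonneg_left hc1 hm0
    linarith

theorem kod_nu_le_birational [IsAlgClosed k] {DX : X.Div} {DY : Y.Div}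
    (h0 : ∀ (P : X.primeDivisors) (Q : Y.primeDivisors), P.1 = Q.1 → DY Q ≤ DX P)
    (h1 : ∀ P : X.primeDivisors, P.1 ∉ Y.primeDivisors →
      ∃ c, Y.IsValue P.1 DY c ∧ c ≤ DX P) : Y.kod DY ≤ X.kod DX ∧ Y.nu DY ≤ X.nu DX := by
  constructor
  · refine kod_le_of_H0 fun m _ => ?_
    have h2 := bi_H0_le h0 h1 (A := 0) (H := (0 : ℚ) • DY) (A' := 0) (fun Q => by simp)
      (fun P Q _ => by simp) (fun P hP => by
        obtain ⟨c, hc, -⟩ := h1 P hP
        exact ⟨_, hc.smul 0, by simp⟩) m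
    rwa [add_zero, add_zero] at h2
  · refine nu_le_of_H0 fun A => ?_
    obtain ⟨H, hH, hHC⟩ := exists_cartier_ge Y A
    choose β hβ using fun P : X.primeDivisors => hHC.exists_value P.1
    obtain ⟨A', hA1, hA2⟩ := bi_exists A (0 : X.Div) β
    refine ⟨A', bi_H0_le h0 h1 hH (fun P Q hPQ => ?_) fun P hP => ⟨β P, hβ P, (hA2 P hP).ge⟩⟩
    have hP : P.1 ∈ Y.primeDivisors := by rw [hPQ]; exact Q.2
    have hQ : Q = ⟨P.1, hP⟩ := Subtype.ext hPQ.symm
    rw [hA1 P hP, hQ, Finsupp.coe_zero, Pi.zero_apply, sub_zero]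

/-- If the pairs `(X, p)` and `(Y, q)` have the same function field, the boundaries agree along the
common prime divisors, and along the other prime divisors the coefficients are at least `1 - A`,
where `A` is the log discrepancy of the other pair, then the Kodaira dimensions and the numerical
dimensions agree. -/
theorem kod_nu_crepant [IsAlgClosed k] [CharZero k] {n : ℕ} (hn : Algebra.trdeg k L = n)
    (q : Y.Pair n) (p : X.Pair n)
    (h0 : ∀ (P : X.primeDivisors) (Q : Y.primeDivisors), P.1 = Q.1 → p.Δ P = q.Δ Q)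
    (h1 : ∀ P : X.primeDivisors, P.1 ∉ Y.primeDivisors → ∃ (a : ℤ) (c : ℚ), P.1.HasOrd q.ω a ∧
      Y.IsValue P.1 q.logDiv c ∧ c ≤ a + p.Δ P)
    (h2 : ∀ Q : Y.primeDivisors, Q.1 ∉ X.primeDivisors → ∃ (a : ℤ) (c : ℚ), Q.1.HasOrd p.ω a ∧
      X.IsValue Q.1 p.logDiv c ∧ c ≤ a + q.Δ Q) :
    X.kod p.logDiv = Y.kod q.logDiv ∧ X.nu p.logDiv = Y.nu q.logDiv := by
  obtain ⟨y, hy⟩ := exists_basis_of_trdeg hn
  obtain ⟨D, hD⟩ := exists_der hy
  obtain ⟨f, hf, hωf⟩ := exists_mult hy y D hD Y q.isDivisorOf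
  obtain ⟨g, hg, hωg⟩ := exists_mult hy y D hD X p.isDivisorOf
  have hψ : f / g ≠ 0 := div_ne_zero hf hg
  have hω : ∀ _ : DVal k L, q.ω = (f / g) • p.ω := by
    intro v
    rw [hωf v, hωg v, smul_smul, div_mul_cancel₀ _ hg]
  have hcommon : ∀ (P : X.primeDivisors) (Q : Y.primeDivisors), P.1 = Q.1 →
      (p.logDiv + X.prin (f / g)) P = q.logDiv Q := by
    intro P Q hPQ
    obtain ⟨a, ha, hoa⟩ := p.isDivisorOf P
    obtain ⟨b, hb, hob⟩ := q.isDivisorOf Q
    have h3 : P.1.HasOrd q.ω (P.1 (f / g) + a) := by rw [hω P.1]; exact hasOrd_smul hψ hoa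
    rw [hPQ] at h3
    have h4 := hasOrd_unique h3 hob
    have h5 := h0 P Q hPQ
    unfold ProjVar.Pair.logDiv
    rw [Finsupp.add_apply, Finsupp.add_apply, Finsupp.add_apply, ProjVar.prin_apply, ha, hb, h5,
      ← h4, hPQ]
    push_cast
    ring
  have h3 := kod_nu_le_birational (X := X) (Y := Y) (DX := p.logDiv + X.prin (f / g))
    (DY := q.logDiv) (fun P Q hPQ => (hcommon P Q hPQ).ge) fun P hP => by
      obtain ⟨a, c, ha, hc, hac⟩ := h1 P hP
      refine ⟨c, hc, ?_⟩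
      obtain ⟨b, hb, hob⟩ := p.isDivisorOf P
      have h4 : P.1.HasOrd q.ω (P.1 (f / g) + b) := by rw [hω P.1]; exact hasOrd_smul hψ hob
      have h5 := hasOrd_unique ha h4
      unfold ProjVar.Pair.logDiv
      rw [Finsupp.add_apply, Finsupp.add_apply, ProjVar.prin_apply, hb]
      rw [h5] at hac
      push_cast at hac
      linarith
  have h4 := kod_nu_le_birational (X := Y) (Y := X) (DX := q.logDiv)
    (DY := p.logDiv + X.prin (f / g)) (fun Q P hPQ => (hcommon P Q hPQ.symm).le) fun Q hQ => by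
      obtain ⟨a, c, ha, hc, hac⟩ := h2 Q hQ
      refine ⟨c + Q.1 (f / g), hc.add (ProjVar.IsValue.prin hψ), ?_⟩
      obtain ⟨b, hb, hob⟩ := q.isDivisorOf Q
      have h4 : Q.1.HasOrd q.ω (Q.1 (f / g) + a) := by rw [hω Q.1]; exact hasOrd_smul hψ ha
      have h5 := hasOrd_unique hob h4
      unfold ProjVar.Pair.logDiv
      rw [Finsupp.add_apply, hb, h5]
      push_cast
      linarith
  rw [X.kod_add_prin _ hψ, X.nu_add_prin _ hψ] at h3 h4
  exact ⟨le_antisymm h4.1 h3.1, le_antisymm h4.2 h3.2⟩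

end Pool.Agent.Helper63.PB
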