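import Pool.Agent.Helper63.PB.StableOps2
import Pool.Agent.Helper63.PB.FinExc
import Pool.Agent.Helper92.Weak.Values
import Pool.Agent.Helper47.PQ.FMain

set_option autoImplicit false

/-!
# PB extraction: stability and birational morphisms `X → Y`, `Y` `ℚ`-factorial

Every prime divisor of `Y` is one of `X`. `DX ≥ DY` at the prime divisors of `Y`, and at the other prime divisors
`P` of `X` (finitely many) `DX P` is larger than the value at `P` of (the pull back of) `DY`.

Let first `DX = DY` at the prime divisors of `Y`. For `B ≥ 0` on `X` and small `c > 0` the value of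
`DY + c B_Y` at `P` is at most `DX P` (`B_Y` the restriction), so `H⁰(Y, m (DY + c B_Y)) ⊆ H⁰(X, m (DX + c B))`, and
`H⁰(X, m (DX + c B) + A) ⊆ H⁰(Y, m (DY + c B_Y) + A_Y)`.
-/

namespace Pool.Agent.Helper63.PB

open Pool.Agent.Helper92.Weak Pool.Agent.Helper92.Ga Pool.Agent.Helper47.PQ

variable {k L : Type*} [Field k] [Field L] [Algebra k L]

/-- The value of an effective divisor is nonnegative. -/
theorem ex_value_nonneg {X : ProjVar k L} {v : DVal k L} {D : X.Div} {c : ℚ}
    (hc : X.IsValue v D c) (hD : ∀ P, 0 ≤ D P) : 0 ≤ c := by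
  obtain ⟨R, hR, hRv, m, f, hm, ⟨hf0, hf⟩, rfl⟩ := hc
  have h1 : 0 ≤ v f := by
    apply ProjVar.val_nonneg hR hRv
    intro P hP hRP
    have h2 := hf ⟨P, hP⟩ hRP
    rw [Finsupp.smul_apply, smul_eq_mul] at h2
    have h3 := mul_nonneg (Nat.cast_nonneg m : (0 : ℚ) ≤ m) (hD ⟨P, hP⟩)
    rw [← h2] at h3
    exact_mod_cast h3
  have h2 : (0 : ℚ) ≤ v f := by exact_mod_cast h1
  positivity

/-- The Kodaira dimension is monotone. -/
theorem kod_le_of_H0 [IsAlgClosed k] {Y X : ProjVar k L} {D : Y.Div} {D' : X.Div}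
    (h : ∀ m : ℕ, 1 ≤ m → Y.H0 ((m : ℚ) • D) ≤ X.H0 ((m : ℚ) • D')) : Y.kod D ≤ X.kod D' := by
  rcases regular D with ⟨-, h0⟩ | ⟨d, C, m₀, hd, hm₀, -, hlow, -⟩
  · rw [h0]
    exact bot_le
  have hlow' : ∀ m : ℕ, 1 ≤ m → ((m ^ d : ℕ) : ℕ∞) ≤
      C * sdim (X.H0 (((m * m₀ : ℕ) : ℚ) • D')) := by
    intro m hm
    have h1 := hlow m hm
    have h2 := Y.h0_le (((m * m₀ : ℕ) : ℚ) • D)
    have h3 := sdim_mono (h (m * m₀) (Nat.mul_pos hm hm₀))
    push_cast at h1 h2 h3 ⊢
    exact h1.trans (mul_le_mul_right (h2.trans h3) _)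
  rcases regular D' with ⟨h0, -⟩ | ⟨d', C', m₁, hd', -, -, -, hup⟩
  · exfalso
    have h1 := hlow' 1 le_rfl
    rw [h0 (1 * m₀) (by omega), sdim_bot, mul_zero, one_pow] at h1
    exact absurd h1 (by simp)
  · rw [hd, hd']
    suffices hdd : d ≤ d' by exact_mod_cast hdd
    by_contra hlt
    push Not at hlt
    have h1 : ∀ m : ℕ, 1 ≤ m → m ^ d ≤ C * (C' * (m * m₀) ^ d') := by
      intro m hm
      have h2 := (hlow' m hm).trans (mul_le_mul_right (hup (m * m₀) (Nat.mul_pos hm hm₀)) _)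
      exact_mod_cast h2
    set M := C * C' * m₀ ^ d' + 1 with hM
    have h2 := h1 M (by omega)
    have h3 : M ^ (d' + 1) ≤ M ^ d := Nat.pow_le_pow_right (by omega) hlt
    have h4 : C * (C' * (M * m₀) ^ d') = C * C' * m₀ ^ d' * M ^ d' := by
      rw [mul_pow]
      ring
    rw [h4] at h2
    have h5 := h3.trans h2
    rw [pow_succ, mul_comm] at h5
    have h6 := Nat.le_of_mul_le_mul_right h5 (pow_pos (by omega : 0 < M) _)
    omega

/-- The numerical dimension is monotone. -/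
theorem nu_le_of_H0 {X Y : ProjVar k L} {D : X.Div} {D' : Y.Div}
    (h : ∀ A : X.Div, ∃ A' : Y.Div, ∀ m : ℕ,
      X.H0 ((m : ℚ) • D + A) ≤ Y.H0 ((m : ℚ) • D' + A')) : X.nu D ≤ Y.nu D' := by
  rw [nu_eq_sup, nu_eq_sup]
  refine iSup_le fun A => ?_
  obtain ⟨A', hA'⟩ := h A
  refine le_trans ?_ (le_iSup (fun A' : Y.Div => logGrowth fun m =>
    sdim (Y.H0 ((m : ℚ) • D' + A'))) A')
  exact logGrowth_le_of_le (C := 1) (φ := fun m => m) Filter.tendsto_id (a := 1) (c := 0)
    (fun m => by simp) fun m _ => by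
      rw [Nat.cast_one, one_mul]
      exact sdim_mono (hA' m)

section

variable {Y X : ProjVar k L} (hX : ∀ P ∈ Y.primeDivisors, P ∈ X.primeDivisors)

/-- The restriction of a divisor to the prime divisors of `Y`. -/
private noncomputable def exRes (D : X.Div) : Y.Div :=
  D.comapDomain (fun P : Y.primeDivisors => (⟨P.1, hX P.1 P.2⟩ : X.primeDivisors))
    (fun _ _ _ _ h => Subtype.ext (congrArg (fun R : X.primeDivisors => R.1) h))

private theorem ex_inj :
    Function.Injective fun P : Y.primeDivisors => (⟨P.1, hX P.1 P.2⟩ : X.primeDivisors) :=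
  fun _ _ h => Subtype.ext (congrArg (fun R : X.primeDivisors => R.1) h)

private theorem exRes_apply (D : X.Div) (P : Y.primeDivisors) :
    exRes hX D P = D ⟨P.1, hX P.1 P.2⟩ := rfl

/-- The extension by zero. -/
private noncomputable def exExt (A : Y.Div) : X.Div :=
  Finsupp.mapDomain (fun P : Y.primeDivisors => (⟨P.1, hX P.1 P.2⟩ : X.primeDivisors)) A

private theorem exExt_apply (A : Y.Div) (P : Y.primeDivisors) :
    exExt hX A ⟨P.1, hX P.1 P.2⟩ = A P := by
  unfold exExt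
  exact Finsupp.mapDomain_apply (ex_inj hX) A P

private theorem exExt_notin (A : Y.Div) (P : X.primeDivisors) (hP : P.1 ∉ Y.primeDivisors) :
    exExt hX A P = 0 := by
  unfold exExt
  refine Finsupp.mapDomain_of_notMem_range _ _ ?_
  rintro ⟨Q, hQ⟩
  apply hP
  rw [← hQ]
  exact Q.2

/-- The basic comparison. -/
private theorem ex_core [IsAlgClosed k] {D : X.Div} {E : Y.Div}
    (h1 : ∀ Q : Y.primeDivisors, D ⟨Q.1, hX Q.1 Q.2⟩ = E Q)
    (h2 : ∀ P : X.primeDivisors, P.1 ∉ Y.primeDivisors → ∃ c, Y.IsValue P.1 E c ∧ c ≤ D P) :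
    Y.kod E ≤ X.kod D ∧ X.nu D ≤ Y.nu E := by
  constructor
  · refine kod_le_of_H0 fun m _ f hf => ?_
    rw [Pool.Agent.Helper60.MA.mem_H0] at hf ⊢
    intro P
    by_cases hf0 : f = 0
    · left
      exact hf0
    by_cases hP : P.1 ∈ Y.primeDivisors
    · have h3 := hf ⟨P.1, hP⟩
      rw [Finsupp.smul_apply] at h3 ⊢
      have h4 := h1 ⟨P.1, hP⟩
      rw [← h4] at h3
      exact h3
    · obtain ⟨c, hc, hcD⟩ := h2 P hP
      have h3 : Y.IsValue P.1 ((m : ℚ) • E + Y.prin f) (m * c + P.1 f) :=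
        (hc.smul m).add (ProjVar.IsValue.prin hf0)
      have h4 := ex_value_nonneg h3 fun Q => by
        have h5 := hf Q
        rw [DVal.ge_iff hf0] at h5
        rw [Finsupp.add_apply, ProjVar.prin_apply]
        linarith
      rw [DVal.ge_iff hf0, Finsupp.smul_apply, smul_eq_mul]
      have h5 : (m : ℚ) * c ≤ m * D P := mul_le_mul_of_nonneg_left hcD (Nat.cast_nonneg m)
      linarith
  · refine nu_le_of_H0 fun A => ⟨exRes hX A, fun m f hf => ?_⟩
    rw [Pool.Agent.Helper60.MA.mem_H0] at hf ⊢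
    intro Q
    have h3 := hf ⟨Q.1, hX Q.1 Q.2⟩
    rw [Finsupp.add_apply, Finsupp.smul_apply, h1] at h3
    rw [Finsupp.add_apply, Finsupp.smul_apply, exRes_apply]
    exact h3

include hX in
private theorem ex_stable_eq [IsAlgClosed k] (hqf : Y.IsQFactorial) {D : X.Div} {E : Y.Div}
    (h1 : ∀ Q : Y.primeDivisors, D ⟨Q.1, hX Q.1 Q.2⟩ = E Q)
    (h2 : ∀ P : X.primeDivisors, P.1 ∉ Y.primeDivisors → ∀ c, Y.IsValue P.1 E c → c < D P)
    (hs : IsStable Y E) : IsStable X D := by
  classical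
  choose α hα using fun P : X.primeDivisors => (hqf E).exists_value P.1
  have hκ : X.kod D ≠ ⊥ := by
    intro h3
    have h4 := (ex_core hX (D := D) (E := E) h1 fun P hP => ⟨α P, hα P, (h2 P hP _ (hα P)).le⟩).1
    rw [h3] at h4
    exact hs.1 (le_bot_iff.1 h4)
  refine isStable_of_small hκ fun B hB => ?_
  choose β hβ using fun P : X.primeDivisors => (hqf (exRes hX B)).exists_value P.1
  have hβ0 : ∀ P, 0 ≤ β P := fun P =>
    ex_value_nonneg (hβ P) fun Q => hB _
  obtain ⟨c, hc, hcS⟩ := exists_small (finite_exc Y X).toFinset (fun P => α P - D P + 1)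
    (fun P => β P) (fun P => P.1 ∉ Y.primeDivisors)
    (fun P hP => by linarith [h2 P hP _ (hα P)]) hβ0
  refine ⟨c, hc, ?_⟩
  have hcB : ∀ Q, 0 ≤ (c • exRes hX B) Q := fun Q => by
    rw [Finsupp.smul_apply, smul_eq_mul]
    exact mul_nonneg hc.le (hB _)
  obtain ⟨h3, h4⟩ := ex_core hX (D := D + c • B) (E := E + c • exRes hX B)
    (fun Q => by
      rw [Finsupp.add_apply, Finsupp.add_apply, Finsupp.smul_apply, Finsupp.smul_apply,
        exRes_apply, h1])
    (fun P hP => by
      refine ⟨α P + c * β P, (hα P).add ((hβ P).smul c), ?_⟩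
      have h5 := hcS P (by rw [Set.Finite.mem_toFinset]; exact hP) hP
      have h6 := mul_nonneg hc.le (hB P)
      rw [Finsupp.add_apply, Finsupp.smul_apply, smul_eq_mul]
      linarith)
  exact le_antisymm (kod_le_nu _) (h4.trans (by rw [← hs.2 _ hcB]; exact h3))

include hX in
/-- Let every prime divisor of the `ℚ`-factorial variety `Y` be a prime divisor of the variety `X` with
the same function field (for instance, there is a birational morphism `X → Y`), let `DX ≥ DY` at
the prime divisors of `Y`, and let `DX` be larger than the value of `DY` at the other prime divisors of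
`X`. If `(Y, DY)` is stable then `(X, DX)` is stable. -/
theorem isStable_extract [IsAlgClosed k] (hqf : Y.IsQFactorial) {DX : X.Div} {DY : Y.Div}
    (h1 : ∀ Q : Y.primeDivisors, DY Q ≤ DX ⟨Q.1, hX Q.1 Q.2⟩)
    (h2 : ∀ P : X.primeDivisors, P.1 ∉ Y.primeDivisors → ∀ c, Y.IsValue P.1 DY c → c < DX P)
    (hs : IsStable Y DY) : IsStable X DX := by
  set B₀ : X.Div := exExt hX (exRes hX DX - DY) with hB₀
  have hB1 : ∀ Q : Y.primeDivisors, B₀ ⟨Q.1, hX Q.1 Q.2⟩ = DX ⟨Q.1, hX Q.1 Q.2⟩ - DY Q := by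
    intro Q
    rw [hB₀, exExt_apply, Finsupp.sub_apply, exRes_apply]
  have hB2 : ∀ P : X.primeDivisors, P.1 ∉ Y.primeDivisors → B₀ P = 0 := fun P hP => by
    rw [hB₀, exExt_notin hX _ P hP]
  have hB0 : ∀ P, 0 ≤ B₀ P := by
    intro P
    by_cases hP : P.1 ∈ Y.primeDivisors
    · have h3 := hB1 ⟨P.1, hP⟩
      have h4 := h1 ⟨P.1, hP⟩
      have h5 : B₀ P = DX P - DY ⟨P.1, hP⟩ := h3
      rw [h5]
      have h6 : DY ⟨P.1, hP⟩ ≤ DX P := h4
      linarith
    · rw [hB2 P hP]
  have hs0 : IsStable X (DX - B₀) := by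
    refine ex_stable_eq hX hqf (E := DY) (fun Q => ?_) (fun P hP c hc => ?_) hs
    · rw [Finsupp.sub_apply, hB1]
      ring
    · rw [Finsupp.sub_apply, hB2 P hP, sub_zero]
      exact h2 P hP c hc
  have e : DX = DX - B₀ + B₀ := (sub_add_cancel _ _).symm
  rw [e]
  refine hs0.add hB0 fun h3 => hs0.1 ?_
  have h4 : X.kod (DX - B₀) ≤ X.kod (DX - B₀ + B₀) := kod_mono fun P => by
    rw [Finsupp.add_apply (DX - B₀)]
    linarith [hB0 P]
  rw [h3] at h4
  exact le_bot_iff.1 h4

include hX in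
/-- Let every prime divisor of the `ℚ`-factorial variety `Y` be a prime divisor of the variety `X` with
the same function field (for instance, there is a birational morphism `X → Y`), let the boundary of
`X` be at least the one of `Y` along the prime divisors of `Y`, and at the other prime divisors `P` of
`X` let the coefficient be larger than `1 - A`, where `A` is the log discrepancy of `(Y, q)` at `P`.
If `(Y, q)` is stable then `(X, p)` is stable. -/
theorem isStable_extract_pair [IsAlgClosed k] [CharZero k] {n : ℕ} (hn : Algebra.trdeg k L = n)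
    (hqf : Y.IsQFactorial) (q : Y.Pair n) (p : X.Pair n)
    (h1 : ∀ (P : X.primeDivisors) (Q : Y.primeDivisors), P.1 = Q.1 → q.Δ Q ≤ p.Δ P)
    (h2 : ∀ P : X.primeDivisors, P.1 ∉ Y.primeDivisors → ∀ (a : ℤ) (c : ℚ), P.1.HasOrd q.ω a →
      Y.IsValue P.1 q.logDiv c → c < a + p.Δ P)
    (hs : IsStable Y q.logDiv) : IsStable X p.logDiv := by
  obtain ⟨y, hy⟩ := exists_basis_of_trdeg hn
  obtain ⟨D, hD⟩ := exists_der hy
  obtain ⟨f, hf, hωf⟩ := exists_mult hy y D hD Y q.isDivisorOf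
  obtain ⟨g, hg, hωg⟩ := exists_mult hy y D hD X p.isDivisorOf
  have hψ : f / g ≠ 0 := div_ne_zero hf hg
  have hω : ∀ _ : DVal k L, q.ω = (f / g) • p.ω := by
    intro v
    rw [hωf v, hωg v, smul_smul, div_mul_cancel₀ _ hg]
  have hord : ∀ P : X.primeDivisors, ∃ a : ℤ, P.1.HasOrd q.ω a ∧
      (a : ℚ) = (p.can + X.prin (f / g)) P := by
    intro P
    obtain ⟨a, ha, hoa⟩ := p.isDivisorOf P
    refine ⟨_, by rw [hω P.1]; exact hasOrd_smul hψ hoa, ?_⟩
    rw [Finsupp.add_apply, ProjVar.prin_apply, ha]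
    push_cast
    ring
  have h3 : IsStable X (p.logDiv + X.prin (f / g)) := by
    refine isStable_extract hX hqf (DY := q.logDiv) (fun Q => ?_) (fun P hP c hc => ?_) hs
    · obtain ⟨a, ha, haP⟩ := hord ⟨Q.1, hX Q.1 Q.2⟩
      obtain ⟨b, hb, hob⟩ := q.isDivisorOf Q
      have hab : a = b := hasOrd_unique ha hob
      have h4 := h1 ⟨Q.1, hX Q.1 Q.2⟩ Q rfl
      unfold ProjVar.Pair.logDiv
      rw [Finsupp.add_apply] at haP
      rw [Finsupp.add_apply, Finsupp.add_apply, Finsupp.add_apply, hb, ← hab]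
      linarith
    · obtain ⟨a, ha, haP⟩ := hord P
      have h4 := h2 P hP a c ha hc
      rw [Finsupp.add_apply] at haP
      unfold ProjVar.Pair.logDiv
      rw [Finsupp.add_apply, Finsupp.add_apply]
      linarith
  have h4 := h3.congr (inv_ne_zero hψ)
  have h5 : p.logDiv + X.prin (f / g) + X.prin (f / g)⁻¹ = p.logDiv := by
    ext P
    rw [Finsupp.add_apply, Finsupp.add_apply, ProjVar.prin_apply, ProjVar.prin_apply, P.1.map_inv]
    push_cast
    ring
  rwa [h5] at h4

end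

end Pool.Agent.Helper63.PB
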