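import Pool.Agent.Helper63.PB.StableOps2
import Pool.Agent.Helper63.PB.TowerDefs
import Pool.Agent.Helper30.PV.Main

set_option autoImplicit false

/-!
# PB product: products of stable pairs, whose divisors split

`exists_effective_box`: an effective divisor `B = D₀ + div g` on `F × Y`, `D₀ = G ⊞ H`. As `B ≥ 0`, `g ∈ H⁰(F × Y, D₀)` is a sum of products `a b`, `a ∈ H⁰(F, G)`, `b ∈ H⁰(Y, H)`, so for one
of them `G + div a ≥ 0` and `H + div b ≥ 0`, and `B` is linearly equivalent to the box of these two.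

`isStable_product`: `K ≥ DF ⊞ DY`; for `B ≥ 0` a multiple of `K + B - (DF ⊞ DY) ≥ 0` is linearly equivalent to a box of
effective divisors; `kod_box`, `nu_box_le`, `le_nu_box`.
-/

namespace Pool.Agent.Helper63.PB

open Pool.Agent.Helper92.Weak Pool.Agent.Helper92.Ga Pool.Agent.Helper47.PQ
open Pool.Agent.Helper30.PV

section

variable {k M K E : Type*} [Field k] [Field M] [Field K] [Field E]
  [Algebra k M] [Algebra k K] [Algebra k E] [Algebra M E] [Algebra K E]
  [IsScalarTower k M E] [IsScalarTower k K E] [IsAlgClosed k] [CharZero k]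

variable {F : ProjVar k M} {Y : ProjVar k K} {X : ProjVar k E}

omit [IsAlgClosed k] [CharZero k] in
private theorem sp_mem_H0 {L : Type*} [Field L] [Algebra k L] {Z : ProjVar k L} {D : Z.Div}
    {z : L} : z ∈ Z.H0 D ↔ ∀ P : Z.primeDivisors, P.1.Ge (-(D P)) z := by
  unfold ProjVar.H0 sec
  rw [Submodule.mem_iInf]
  rfl

omit [IsAlgClosed k] [CharZero k] in
private theorem sp_nonneg {L : Type*} [Field L] [Algebra k L] {Z : ProjVar k L} {D : Z.Div}
    {z : L} (hz0 : z ≠ 0) : z ∈ Z.H0 D ↔ ∀ P, 0 ≤ (D + Z.prin z) P := by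
  rw [sp_mem_H0]
  refine forall_congr' fun P => ?_
  rw [DVal.ge_iff hz0, Finsupp.add_apply, ProjVar.prin_apply]
  constructor <;> intro h <;> linarith

omit [CharZero k] in
private theorem sp_key {L : Type*} [Field L] [Algebra k L] {Z : ProjVar k L} {G A : Z.Div}
    {N : ℕ} (hN : 1 ≤ N) (hG : IsStable Z G) (hA : ∀ Q, 0 ≤ A Q) :
    Z.kod ((N : ℚ) • G + A) = Z.nu ((N : ℚ) • G + A) := by
  have hN0 : (0 : ℚ) < N := by exact_mod_cast hN
  have e : (N : ℚ) • G + A = (N : ℚ) • (G + ((N : ℚ)⁻¹) • A) := by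
    rw [smul_add, smul_smul, mul_inv_cancel₀ hN0.ne', one_smul]
  have hA' : ∀ Q, 0 ≤ (((N : ℚ)⁻¹) • A) Q := fun Q => by
    rw [Finsupp.smul_apply, smul_eq_mul]
    exact mul_nonneg (inv_nonneg.2 hN0.le) (hA Q)
  rw [e, kod_smul _ hN, nu_smul _ hN]
  exact hG.2 _ hA'

omit [CharZero k] in
/-- Effective divisors on a product which are linearly equivalent to boxes are linearly equivalent
to boxes of effective divisors. -/
theorem exists_effective_box (h : IsProduct F Y X) {B : X.Div} (hB0 : ∀ P, 0 ≤ B P) {g : E}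
    {DF : F.Div} {DY : Y.Div} {D₀ : X.Div} (hg : g ≠ 0) (hb : IsBox DF DY D₀)
    (he : B = D₀ + X.prin g) :
    ∃ (BF : F.Div) (BY : Y.Div) (D : X.Div) (ψ : E), (∀ T, 0 ≤ BF T) ∧ (∀ Q, 0 ≤ BY Q) ∧
      ψ ≠ 0 ∧ IsBox BF BY D ∧ B = D + X.prin ψ := by
  have hgm : g ∈ X.H0 D₀ := by
    rw [sp_nonneg hg, ← he]
    exact hB0
  obtain ⟨n, a, b, ha, hbm, hai, hbi, hsum⟩ := exists_expansion_H0 h hb hgm
  have hn : 0 < n := by
    rcases Nat.eq_zero_or_pos n with rfl | hn
    · rw [Finset.univ_eq_empty, Finset.sum_empty] at hsum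
      exact absurd hsum hg
    · exact hn
  have ha0 : a ⟨0, hn⟩ ≠ 0 := hai.ne_zero _
  have hb0 : b ⟨0, hn⟩ ≠ 0 := hbi.ne_zero _
  set f : M := a ⟨0, hn⟩ with hf
  set u : K := b ⟨0, hn⟩ with hu
  have hfu : algebraMap M E f * algebraMap K E u ≠ 0 :=
    mul_ne_zero (by rwa [Ne, map_eq_zero]) (by rwa [Ne, map_eq_zero])
  refine ⟨DF + F.prin f, DY + Y.prin u, D₀ + X.prin (algebraMap M E f * algebraMap K E u),
    g / (algebraMap M E f * algebraMap K E u), (sp_nonneg ha0).1 (ha _),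
    (sp_nonneg hb0).1 (hbm _), div_ne_zero hg hfu, hb.add (h.prin_box ha0 hb0), ?_⟩
  ext P
  rw [he, Finsupp.add_apply, Finsupp.add_apply, Finsupp.add_apply, ProjVar.prin_apply,
    ProjVar.prin_apply, ProjVar.prin_apply, P.1.map_div hg hfu]
  push_cast
  ring

/-- If one factor is rational, then the divisors of the product split. -/
theorem isSplit_of_rational (h : IsProduct F Y X) (hr : IsRational k M ∨ IsRational k K) :
    IsSplit F Y X := by
  intro B
  obtain ⟨N, hN, hNB⟩ := exists_int_mult B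
  obtain ⟨g, DF, DY, D₀, hg, -, -, hb, he⟩ := isDecomposable_of_rational h hr hNB
  refine ⟨N, g, DF, DY, D₀, hN, hg, hb, fun P => ?_⟩
  rw [← ProjVar.prin_apply, ← Finsupp.add_apply, ← he, Finsupp.smul_apply, smul_eq_mul]

/-- Products of stable divisors are stable, if the divisors of the product split. -/
theorem isStable_product (h : IsProduct F Y X) (hs : IsSplit F Y X)
    {DF : F.Div} {DY : Y.Div} {D₀ D : X.Div} (hbox : IsBox DF DY D₀) (hle : ∀ P, D₀ P ≤ D P)
    (hF : IsStable F DF) (hY : IsStable Y DY) : IsStable X D := by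
  refine ⟨fun h0 => ?_, fun B hB => ?_⟩
  · have h1 : X.kod D₀ ≤ X.kod D := kod_mono hle
    rw [h0, le_bot_iff, kod_box h hbox, EReal.add_eq_bot_iff] at h1
    exact h1.elim hF.1 hY.1
  · have hB1 : ∀ P, 0 ≤ (D + B - D₀) P := fun P => by
      rw [Finsupp.sub_apply, Finsupp.add_apply]
      linarith [hle P, hB P]
    obtain ⟨N, g, EF, EY, E₀, hN, hg, hEb, hEe⟩ := hs (D + B - D₀)
    replace hEe : (N : ℚ) • (D + B - D₀) = E₀ + X.prin g := by
      ext P
      rw [Finsupp.smul_apply, smul_eq_mul, Finsupp.add_apply, ProjVar.prin_apply, hEe P]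
    have hN0 : (0 : ℚ) < N := by exact_mod_cast hN
    obtain ⟨BF, BY, D₁, ψ, hBF, hBY, hψ, hb, he⟩ := exists_effective_box h (fun P => by
      rw [Finsupp.smul_apply, smul_eq_mul]
      exact mul_nonneg hN0.le (hB1 P)) hg hEb hEe
    have hbox2 := (hbox.smul (N : ℚ)).add hb
    have hD : (N : ℚ) • (D + B) = (N : ℚ) • D₀ + D₁ + X.prin ψ := by
      rw [add_assoc, ← he, ← smul_add, add_sub_cancel]
    have hk : X.kod (D + B) = X.kod ((N : ℚ) • D₀ + D₁) := by
      rw [← kod_smul (D + B) hN, hD, ProjVar.kod_add_prin _ hψ]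
    have hn : X.nu (D + B) = X.nu ((N : ℚ) • D₀ + D₁) := by
      rw [← nu_smul (D + B) hN, hD, ProjVar.nu_add_prin _ hψ]
    have hF2 := sp_key hN hF hBF
    have hY2 := sp_key hN hY hBY
    have h1 := kod_box h hbox2
    have h2 := nu_box_le h hbox2
    rw [hk, hn]
    refine le_antisymm (kod_le_nu _) ?_
    rw [h1, hF2, hY2]
    exact h2

omit [IsAlgClosed k] in
/-- The dimension of a product. -/
theorem trdeg_of_product (h : IsProduct F Y X) {m n : ℕ} (hm : Algebra.trdeg k M = m)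
    (hn : Algebra.trdeg k K = n) : Algebra.trdeg k E = (m + n : ℕ) := by
  obtain ⟨x, hx⟩ := exists_basis_of_trdeg hm
  obtain ⟨y, hy⟩ := exists_basis_of_trdeg hn
  obtain ⟨DM, hDM⟩ := exists_der hx
  obtain ⟨DK, hDK⟩ := exists_der hy
  have hd := h.disj
  have hfr := h.isFrac_top
  have hfr' : IsFrac (prodRing E (⊤ : Subalgebra k K) (⊤ : Subalgebra k M)) := by
    rwa [prodRing_comm]
  choose δM hM1 hM2 using fun i => exists_extend (E := E) (linDisj_symm hd) hfr' (DM i)
  choose δK hK1 hK2 using fun i => exists_extend (E := E) hd hfr (DK i)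
  have hdual := append_dual (X := fun i => algebraMap M E (x i))
    (Z := fun i => algebraMap K E (y i)) (D₁ := δM) (D₂ := δK)
    (fun i j => by rw [hM1, hDM]; split_ifs <;> simp) (fun i j => hM2 i _) (fun i j => hK2 i _)
    (fun i j => by rw [hK1, hDK]; split_ifs <;> simp)
  have hz := isTransc_append hfr hx hy (Fin.append δM δK) hdual
  have h1 := hz.lift_cardinalMk_eq_trdeg
  rw [Cardinal.mk_fin, Cardinal.lift_natCast] at h1
  rw [eq_comm, Cardinal.lift_eq_nat_iff] at h1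
  exact h1

/-- Products of stable pairs, whose divisors split, with any boundary on the product which is at
least the sum of the pull backs, are stable. -/
theorem isStable_product_pair (h : IsProduct F Y X) (hs : IsSplit F Y X)
    {m n : ℕ} (hm : Algebra.trdeg k M = m) (hn : Algebra.trdeg k K = n) (pF : F.Pair m)
    (pY : Y.Pair n) (p : X.Pair (m + n))
    (h1 : ∀ (P : X.primeDivisors) (T : F.primeDivisors), LiesOver P.1 T.1 1 → pF.Δ T ≤ p.Δ P)
    (h2 : ∀ (P : X.primeDivisors) (Q : Y.primeDivisors), LiesOver P.1 Q.1 1 → pY.Δ Q ≤ p.Δ P)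
    (hF : IsStable F pF.logDiv) (hY : IsStable Y pY.logDiv) : IsStable X p.logDiv := by
  obtain ⟨g, C₀, hg, hC, he, -, -⟩ := h.exists_boxForm hm hn pF.isDivisorOf pY.isDivisorOf
    p.isDivisorOf
  obtain ⟨Δ₀, hΔ₀⟩ := h.exists_box pF.Δ pY.Δ
  have hle : ∀ P, Δ₀ P ≤ p.Δ P := by
    intro P
    rcases h.trichotomy P.2 with ⟨h3, h4⟩ | ⟨Q, hQ, hG⟩ | ⟨T, hT, hG⟩
    · rw [hΔ₀.dom P h3 h4]
      exact p.nonneg P
    · have h5 : LiesOver P.1 Q 1 := ⟨one_pos, fun b => by
        rw [hG.apply_right b]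
        push_cast
        ring⟩
      rw [hΔ₀.right P ⟨Q, hQ⟩ 1 h5, Nat.cast_one, one_mul]
      exact h2 P ⟨Q, hQ⟩ h5
    · have h5 : LiesOver P.1 T 1 := ⟨one_pos, fun b => by
        rw [hG.apply_right b]
        push_cast
        ring⟩
      rw [hΔ₀.left P ⟨T, hT⟩ 1 h5, Nat.cast_one, one_mul]
      exact h1 P ⟨T, hT⟩ h5
  have h3 : IsStable X (C₀ + p.Δ) := by
    refine isStable_product (DF := pF.logDiv) (DY := pY.logDiv) h hs (hC.add hΔ₀) (fun P => ?_)
      hF hY
    rw [Finsupp.add_apply, Finsupp.add_apply]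
    linarith [hle P]
  have h4 := h3.congr hg
  have h5 : C₀ + p.Δ + X.prin g = p.logDiv := by
    unfold ProjVar.Pair.logDiv
    rw [he]
    abel
  rwa [h5] at h4

/-- Weak abundance for products of pairs. -/
theorem kod_eq_nu_box (h : IsProduct F Y X) {m n : ℕ} (hm : Algebra.trdeg k M = m)
    (hn : Algebra.trdeg k K = n) (pF : F.Pair m) (pY : Y.Pair n) (p : X.Pair (m + n))
    (hb : IsBox pF.Δ pY.Δ p.Δ) (hF : F.kod pF.logDiv = F.nu pF.logDiv)
    (hY : Y.kod pY.logDiv = Y.nu pY.logDiv) : X.kod p.logDiv = X.nu p.logDiv := by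
  obtain ⟨g, C₀, hg, hC, he, -, -⟩ := h.exists_boxForm hm hn pF.isDivisorOf pY.isDivisorOf
    p.isDivisorOf
  have h1 : p.logDiv = C₀ + p.Δ + X.prin g := by
    unfold ProjVar.Pair.logDiv
    rw [he]
    abel
  have h2 : IsBox pF.logDiv pY.logDiv (C₀ + p.Δ) := hC.add hb
  rw [h1, ProjVar.kod_add_prin _ hg, ProjVar.nu_add_prin _ hg]
  refine le_antisymm (kod_le_nu _) ?_
  rw [kod_box h h2, hF, hY]
  exact nu_box_le h h2

end

end Pool.Agent.Helper63.PB
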